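import Pool.Agent.Y162.FD.Exact

/-!
# The exact density of the ordinary places of K3 surfaces, over the ground field itself

Let `K` be a number field and `X i`, `i ∈ ι`, finitely many K3 surfaces or elliptic curves over `K`.
Let `T i` be the transcendental part of `H^2` (of `H^1` in the case of an elliptic curve) and `E i`
the field of all its endomorphisms over the algebraic closure; the Galois group of `K` acts on `E i`
through the Galois group of a finite extension `K i`, the smallest one over which all these
endomorphisms are defined.  Then the set of the places of `K` at which all `X i` (or, what is the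
same, their product) have good ordinary reduction has the natural density

  `1 / [K']`, where `[K']` is the degree over `K` of the compositum `K'` of the `K i`.

The theorem is formulated for systems of `ℓ`-adic representations: `EndSystem` is the data,
`IsEndSystem` lists the properties, which in the case of K3 surfaces are known (purity, integrality,
the Tate conjecture and semisimplicity for endomorphisms).  Ordinary reduction at a place `v` of degree one
above `p` means that the trace `a v` of Frobenius is prime to `p`.
-/

set_option autoImplicit false

namespace Pool.Agent.Results.MP_17d720_ag.ExactDensity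

open NumberField IsDedekindDomain Filter Topology
open Pool.Agent.W401.Cheb Pool.Agent.W528.Ord Pool.Agent.Y162.FD
open Pool.Agent.W528.Ord.MultSystem (IsDeg1)

theorem result {K : Type} [Field K] [NumberField K] {ℓ : ℕ} [Fact ℓ.Prime]
    {ι : Type} [Finite ι] (A : ι → EndSystem K ℓ) (χ : GK K →* (PadicAlgCl ℓ)ˣ)
    (S : Finset ℕ) (hA : ∀ i, IsEndSystem (A i) χ S) :
    Tendsto (ratio fun v : HeightOneSpectrum (𝓞 K) => IsDeg1 S v ∧
      ∀ i, ¬ (Ideal.absNorm v.asIdeal : ℤ) ∣ (A i).a v) atTop
      (𝓝 (1 / ((fixAll A).index : ℝ))) :=
  main A χ S hA

end Pool.Agent.Results.MP_17d720_ag.ExactDensity
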