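import Pool.Agent.Y712.AJ.SlMain

/-!
# Density of the places of ordinary reduction: rational varieties in the middle degree

Let `k` be a number field, `V` the set of its finite places with the norm `nm`, and consider the Hodge
polygons and the Newton polygons of the cohomology groups `H^i(X)`, for all smooth projective varieties
`X` over `k` and all `i`. The reduction of `X` at a good place `v` is ordinary if these polygons are equal
for **all** `i`. We prove:

1. For each `X` there is a **rational** variety `B`, a blow-up of a projective space in one smooth centre,
   of odd or even dimension as one likes, such that at all but finitely many places where the Newton and
   Hodge polygons of the single group `H^(dim B)(B)` are equal, `X` is ordinary, in all degrees.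
2. So the following are equivalent: for all `X`, the set of the places of good ordinary reduction has
   positive lower density; for all rational `B` of odd dimension, the set of the places where the
   polygons of the **middle degree** of `B` are equal has positive lower density; the same for even
   dimension.
3. The same for density one, and for infinite sets.

Proof. Let `E` be an elliptic curve, `Y = X × E` and `B` the blow-up of a projective space of large
dimension `N` with centre `Y`. Then `H^N(B)` contains the groups `H^j(Y)`, `j ≡ N` modulo `2`, and `H^j(Y)`
contains `H^j(X)` and `H^(j-1)(X) ⊗ H^1(E)`. Define the defect of a pair of polygons as the difference of
the sums of the squares of the slopes. It is nonnegative, zero if and only if the polygons are equal,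
additive in direct sums, invariant under Tate twists, and
`defect (A ⊗ B) = rank B · defect A + rank A · defect B`.
-/

set_option autoImplicit false

open Pool.Agent.H914 VarClass Obj Pool.Agent.Y712.Sl

universe u

namespace Pool.Agent.Results.MP_17d720_ag.MiddleDegree

/-- **Good ordinary reduction, in all degrees at once, of all smooth projective varieties at a set of
places of positive density (of density one, infinite) is equivalent to the equality of the Newton and
Hodge polygons in the middle degree for the rational varieties of odd (or even) dimension.** -/
theorem result {k : Type u} [Field k] {𝒱 : VarClass k} {V : Type} [Infinite V] {nm : V → ℕ}
    (hnm : ∀ x, {v | nm v ≤ x}.Finite) {T : Data 𝒱 V} {R : 𝒱.Obj → Prop} (hT : IsPoly T R) :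
    Dominated T R ∧ Reduces T R (PosDensity nm) ∧ Reduces T R (DensityOne nm) ∧
      Reduces T R Set.Infinite :=
  ⟨fun X e he => pointwise hT X e he, reduces hT (large_pos hnm), reduces hT (large_one hnm),
    reduces hT large_infinite⟩

end Pool.Agent.Results.MP_17d720_ag.MiddleDegree
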