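import Pool.Agent.Y101.Ds.Ord
import Pool.Agent.Y101.Ds.Dens

/-!
# Places of ordinary reduction and trilinear forms
-/

set_option autoImplicit false

open CategoryTheory AlgebraicGeometry NumberField IsDedekindDomain
open Pool.Agent.Y116.UV Pool.Agent.Y101.Th Pool.Agent.Y101.Ds

namespace Pool.Agent.Results.MP_17d720_ag.TrilinearForms

/-- The smooth projective schemes of dimension at most `n` over `k`. -/
def Projective (k : Type) [Field k] (n : ℕ) (X : Sch k) : Prop :=
  SmProj X ∧ topologicalKrullDim X.left ≤ n

/-- The smooth affine cubic hypersurfaces `t(x, y, z) = 1` for the trilinear forms `t` over `k` one of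
whose three blocks of variables has at most `m` variables. -/
def Cubic (k : Type) [Field k] (m : ℕ) (X : Sch k) : Prop :=
  ∃ (a b c : ℕ) (t : Fin a → Fin b → Fin c → k), (a ≤ m ∨ b ≤ m ∨ c ≤ m) ∧ X = hypS t

/-- The hypersurfaces `t(x, y, z) = 1` for the trilinear forms `t` with coefficients `0` and `1` (given
by the set `H` of the indices of the coefficients `1`) with `m` variables `z`. -/
def ZeroOne (k : Type) [Field k] (m : ℕ) (X : Sch k) : Prop :=
  ∃ (a b : ℕ) (H : Finset (Fin a × Fin b × Fin m)), X = tripS k H

/-- **Places of ordinary reduction and trilinear forms.** Let `k` be a number field and let `L` be a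
notion of large sets of places of `k`, such as the sets of positive lower density. For each `n`, the
smooth projective schemes of each finite family of dimension at most `n` have simultaneous good
ordinary reduction at a large set of places if and only if the weight graded pieces of the cohomology
with compact supports of the hypersurfaces `t(x, y, z) = 1` of each finite family of trilinear forms
with a block of at most `n + 2` variables are ordinary at a large set of places. All smooth projective
schemes have ordinary reduction at a large set of places if and only if this is so for all finite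
families of trilinear forms. Over `ℚ` it is enough to consider the coefficients `0` and `1` and
`n + 2` variables `z`. Positive lower density is such a notion `L`. -/
theorem result {k : Type} [Field k] [NumberField k]
    (O : Sch k → Set (HeightOneSpectrum (𝓞 k))) (hO : IsOrdinary O)
    (hk : Pool.Agent.Y691.TU.Resolution k)
    (L : Set (HeightOneSpectrum (𝓞 k)) → Prop) (hL : IsLargeness L) :
    (∀ n, Jointly L O (Projective k n) ↔ Jointly L O (Cubic k (n + 2))) ∧
    ((∀ X : Sch k, SmProj X → L (O X)) ↔ Jointly L O fun X => ∃ m, Cubic k m X) ∧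
    ((∀ x : k, ∃ d m : ℤ, IsUnit (d : k) ∧ (d : k) * x = m) →
      (∀ n, Jointly L O (Projective k n) ↔ Jointly L O (ZeroOne k (n + 2))) ∧
      ((∀ X : Sch k, SmProj X → L (O X)) ↔ Jointly L O fun X => ∃ m, ZeroOne k m X)) ∧
    IsLargeness (PosDensity : Set (HeightOneSpectrum (𝓞 k)) → Prop) := by
  have hPC : ∀ (n : ℕ) (X : Sch k), Projective k n X → Controlled O (Cubic k (n + 2)) X := by
    intro n X hX
    exact (gen_dim (bnd_controlled hO _) n).mpr (fun a b c t ht =>
      controlled_self ⟨a, b, c, t, ht, rfl⟩) X hX.1.ft hX.2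
  have hall : ∀ (n : ℕ) (X : Sch k), FT True X → topologicalKrullDim X.left ≤ n →
      Controlled O (Projective k n) X := fun n =>
    Pool.Agent.Y691.TU.of_smproj hk (bnd_controlled hO _) n fun X hX hd =>
      controlled_self ⟨hX, hd⟩
  have hCP : ∀ (n : ℕ) (X : Sch k), Cubic k (n + 2) X → Controlled O (Projective k n) X := by
    rintro n X ⟨a, b, c, t, ht, rfl⟩
    exact (gen_dim (bnd_controlled hO _) n).mp (hall n) a b c t ht
  have hCS : ∀ X : Sch k, (∃ m, Cubic k m X) → Controlled O SmProj X := by
    rintro X ⟨m, a, b, c, t, ht, rfl⟩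
    obtain ⟨l, hl, hs⟩ := hCP m (hypS t) ⟨a, b, c, t, by omega, rfl⟩
    exact ⟨l, fun Y hY => (hl Y hY).1, hs⟩
  have hSC : ∀ X : Sch k, SmProj X → Controlled O (fun X => ∃ m, Cubic k m X) X := by
    intro X hX
    exact (gen_all (bnd_controlled hO _).toUni).mpr (fun a b c t =>
      controlled_self ⟨a, a, b, c, t, Or.inl le_rfl, rfl⟩) X hX.ft
  have hZC : ∀ (m : ℕ) (X : Sch k), ZeroOne k m X → Cubic k m X := by
    rintro m X ⟨a, b, H, rfl⟩
    classical
    refine ⟨a, b, m, fun i j l => if (i, j, l) ∈ H then 1 else 0, Or.inr (Or.inr le_rfl), ?_⟩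
    unfold hypS tripS Trip
    rw [← tri_ind]
  refine ⟨fun n => ⟨jointly_of hL (hCP n), jointly_of hL (hPC n)⟩,
    (jointly_smproj hO hL).trans ⟨jointly_of hL hCS, jointly_of hL hSC⟩,
    fun hf => ⟨fun n => ⟨jointly_of hL fun X hX => hCP n X (hZC _ X hX), jointly_of hL ?_⟩,
      (jointly_smproj hO hL).trans ⟨jointly_of hL ?_, jointly_of hL ?_⟩⟩,
    largeness_posDensity⟩
  · intro X hX
    exact (Pool.Agent.Y691.TU.gen_frac hf (bnd_controlled hO _) n).mpr (fun a b H =>
      controlled_self ⟨a, b, H, rfl⟩) X hX.1.ft hX.2
  · rintro X ⟨m, hX⟩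
    exact hCS X ⟨m, hZC m X hX⟩
  · intro X hX
    exact Pool.Agent.Z125.UN.universal_frac hf (bnd_controlled hO _).toUni (fun a b c H =>
      controlled_self ⟨c, a, b, H, rfl⟩) X hX.ft

end Pool.Agent.Results.MP_17d720_ag.TrilinearForms
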